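import Pool.Agent.E8helper23.SG.Stm

/-!
# Project SG (MP_92f640_nt), piece DIV: the sum of `tau` over the multiples of a squarefree `d`
-/

set_option autoImplicit false

namespace Pool.Agent.E8helper12.SG

open Finset
open Pool.Agent.E8helper22.SZ (RealPrim cv tau)
open Pool.Agent.E8helper23.SG

variable {q : ℕ} {χ : DirichletCharacter ℂ q}

lemma cv_mul (h : RealPrim q χ) (a b : ℕ) : cv χ (a * b) = cv χ a * cv χ b := by
  unfold cv
  rw [Nat.cast_mul, map_mul]
  rcases h.quad (a : ZMod q) with h1 | h1 | h1 <;> rcases h.quad (b : ZMod q) with h2 | h2 | h2 <;>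
    simp [h1, h2]

lemma cv_abs (h : RealPrim q χ) (a : ℕ) : |cv χ a| ≤ 1 := by
  unfold cv
  rcases h.quad (a : ZMod q) with h1 | h1 | h1 <;> simp [h1]

lemma tau_prime_mul (h : RealPrim q χ) {p : ℕ} (hp : p.Prime) {n : ℕ} (hn : 0 < n) :
    tau χ (p * n) = (1 + cv χ p) * tau χ n -
      cv χ p * (if p ∣ n then tau χ (n / p) else 0) := by
  classical
  have hinj : Function.Injective (fun e : ℕ => p * e) :=
    fun a b hab => Nat.eq_of_mul_eq_mul_left hp.pos hab
  have hsum : ∀ m : ℕ, ∑ d ∈ (m.divisors).image (fun e => p * e), cv χ d = cv χ p * tau χ m := by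
    intro m
    rw [sum_image (fun a _ b _ hab => hinj hab)]
    unfold tau
    rw [mul_sum]
    exact sum_congr rfl fun d _ => cv_mul h p d
  have h1 : (p * n).divisors = n.divisors ∪ (n.divisors).image (fun e => p * e) := by
    ext d
    simp only [Nat.mem_divisors, mem_union, mem_image]
    constructor
    · rintro ⟨hd, h0⟩
      by_cases hpd : p ∣ d
      · obtain ⟨e, rfl⟩ := hpd
        right
        exact ⟨e, ⟨Nat.dvd_of_mul_dvd_mul_left hp.pos hd, hn.ne'⟩, rfl⟩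
      · left
        refine ⟨?_, hn.ne'⟩
        exact (Nat.Coprime.dvd_of_dvd_mul_left
          ((Nat.Prime.coprime_iff_not_dvd hp).2 hpd).symm hd)
    · have hne : p * n ≠ 0 := Nat.mul_ne_zero hp.ne_zero hn.ne'
      rintro (⟨hd, h0⟩ | ⟨e, ⟨he, h0⟩, rfl⟩)
      · exact ⟨hd.mul_left p, hne⟩
      · exact ⟨Nat.mul_dvd_mul_left p he, hne⟩
  have h2 : ∑ d ∈ n.divisors ∩ (n.divisors).image (fun e => p * e), cv χ d =
      cv χ p * (if p ∣ n then tau χ (n / p) else 0) := by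
    by_cases hpn : p ∣ n
    · rw [if_pos hpn, ← hsum]
      apply sum_congr _ fun _ _ => rfl
      obtain ⟨n', rfl⟩ := hpn
      rw [Nat.mul_div_cancel_left _ hp.pos]
      have hn' : n' ≠ 0 := by
        rintro rfl
        simp at hn
      ext d
      simp only [Nat.mem_divisors, mem_inter, mem_image]
      constructor
      · rintro ⟨⟨hd, h0⟩, e, ⟨he, _⟩, rfl⟩
        exact ⟨e, ⟨Nat.dvd_of_mul_dvd_mul_left hp.pos hd, hn'⟩, rfl⟩
      · rintro ⟨e, ⟨he, _⟩, rfl⟩
        exact ⟨⟨Nat.mul_dvd_mul_left p he, hn.ne'⟩, e, ⟨he.mul_left p, hn.ne'⟩, rfl⟩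
    · rw [if_neg hpn, mul_zero]
      apply sum_eq_zero
      intro d hd
      simp only [Nat.mem_divisors, mem_inter, mem_image] at hd
      obtain ⟨⟨hd, h0⟩, e, ⟨he, _⟩, rfl⟩ := hd
      exact absurd (dvd_of_mul_right_dvd hd) hpn
  have h3 := sum_union_inter (s₁ := n.divisors) (s₂ := (n.divisors).image (fun e => p * e))
    (f := fun d => cv χ d)
  rw [← h1, h2, hsum] at h3
  have h4 : tau χ (p * n) = ∑ d ∈ (p * n).divisors, cv χ d := rfl
  have h5 : tau χ n = ∑ d ∈ n.divisors, cv χ d := rfl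
  rw [← h4, ← h5] at h3
  linarith

/-- the recursion for the sums -/
lemma sum_rec (h : RealPrim q χ) {p d : ℕ} (hp : p.Prime) (hd : 0 < d) (hpd : ¬ p ∣ d) (y : ℝ) :
    ∑ m ∈ Icc 1 ⌊y⌋₊, tau χ (p * d * m) =
      (1 + cv χ p) * ∑ m ∈ Icc 1 ⌊y⌋₊, tau χ (d * m) -
        cv χ p * ∑ m ∈ Icc 1 ⌊y / p⌋₊, tau χ (d * m) := by
  classical
  have h1 : ∀ m ∈ Icc 1 ⌊y⌋₊, tau χ (p * d * m) = (1 + cv χ p) * tau χ (d * m) -
      cv χ p * (if p ∣ m then tau χ (d * (m / p)) else 0) := by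
    intro m hm
    have hm1 : 0 < m := (mem_Icc.1 hm).1
    rw [mul_assoc, tau_prime_mul h hp (Nat.mul_pos hd hm1)]
    by_cases hpm : p ∣ m
    · rw [if_pos hpm, if_pos (hpm.mul_left d), Nat.mul_div_assoc d hpm]
    · rw [if_neg hpm, if_neg]
      intro h2
      rcases (Nat.Prime.dvd_mul hp).1 h2 with h3 | h3
      · exact hpd h3
      · exact hpm h3
  rw [sum_congr rfl h1, sum_sub_distrib, ← mul_sum, ← mul_sum]
  congr 2
  rw [← sum_filter]
  have h2 : (Icc 1 ⌊y⌋₊).filter (fun m => p ∣ m) = (Icc 1 ⌊y / p⌋₊).image (fun m => p * m) := by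
    rw [Nat.floor_div_natCast]
    ext m
    simp only [mem_filter, mem_Icc, mem_image]
    constructor
    · rintro ⟨⟨h2, h3⟩, m', rfl⟩
      refine ⟨m', ⟨Nat.pos_of_ne_zero ?_, ?_⟩, rfl⟩
      · rintro rfl
        simp at h2
      · rw [Nat.le_div_iff_mul_le hp.pos, mul_comm]
        exact h3
    · rintro ⟨m', ⟨h2, h3⟩, rfl⟩
      rw [Nat.le_div_iff_mul_le hp.pos, mul_comm] at h3
      exact ⟨⟨Nat.mul_pos hp.pos h2, h3⟩, dvd_mul_right p m'⟩
  rw [h2, sum_image (fun a _ b _ hab => Nat.eq_of_mul_eq_mul_left hp.pos hab)]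
  apply sum_congr rfl
  intro m hm
  rw [Nat.mul_div_cancel_left _ hp.pos]

theorem t_DIV (h : S_SUMT) : S_DIV := by
  intro q _ χ hq hχ d
  induction d using Nat.strong_induction_on with
  | _ d ih =>
  intro hsq y hy
  have hq0 : (0 : ℝ) ≤ 8 * q := by positivity
  by_cases hd1 : d = 1
  · subst hd1
    have := h q χ hq hχ y hy
    simpa using this
  have hd0 : d ≠ 0 := hsq.ne_zero
  obtain ⟨p, hp, d', rfl⟩ := Nat.exists_prime_and_dvd hd1
  have hd'0 : 0 < d' := Nat.pos_of_ne_zero (by rintro rfl; simp at hd0)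
  have hpd : ¬ p ∣ d' := by
    rintro ⟨e, rfl⟩
    have h1 : p * p ∣ p * (p * e) := ⟨e, by ring⟩
    exact hp.one_lt.ne' (Nat.isUnit_iff.1 (hsq p h1))
  have hlt : d' < p * d' := by
    nlinarith [hp.two_le]
  have hsq' : Squarefree d' := hsq.squarefree_of_dvd (dvd_mul_left d' p)
  have hy' : 0 ≤ y / p := by positivity
  have e1 := ih d' hlt hsq' y hy
  have e2 := ih d' hlt hsq' (y / p) hy'
  have hprod : ∏ r ∈ (p * d').primeFactors, (1 + cv χ r - cv χ r / r) =
      (1 + cv χ p - cv χ p / p) * ∏ r ∈ d'.primeFactors, (1 + cv χ r - cv χ r / r) := by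
    have h1 : (p * d').primeFactors = insert p d'.primeFactors := by
      rw [Nat.primeFactors_mul hp.ne_zero hd'0.ne', hp.primeFactors, insert_eq]
    rw [h1, prod_insert]
    intro h2
    exact hpd (Nat.dvd_of_mem_primeFactors h2)
  rw [sum_rec hχ hp hd'0 hpd, hprod]
  set P := ∏ r ∈ d'.primeFactors, (1 + cv χ r - cv χ r / r) with hP
  set L := (χ.LFunction 1).re with hL
  set F := ∑ m ∈ Icc 1 ⌊y⌋₊, tau χ (d' * m) with hF
  set G := ∑ m ∈ Icc 1 ⌊y / p⌋₊, tau χ (d' * m) with hG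
  have hp0 : (0 : ℝ) < p := by exact_mod_cast hp.pos
  have hp2 : (2 : ℝ) ≤ p := by exact_mod_cast hp.two_le
  have hsqrt : Real.sqrt (y / p) ≤ Real.sqrt y := by
    apply Real.sqrt_le_sqrt
    exact div_le_self hy (by linarith)
  set B := 8 * (q : ℝ) * (d' : ℝ) ^ 2 * Real.sqrt y with hB
  have hB0 : 0 ≤ B := by positivity
  have e3 : |G - y / p * L * P| ≤ B := by
    refine e2.trans ?_
    rw [hB]
    gcongr
  have hsplit : (1 + cv χ p) * F - cv χ p * G -
      y * L * ((1 + cv χ p - cv χ p / p) * P) =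
      (1 + cv χ p) * (F - y * L * P) - cv χ p * (G - y / p * L * P) := by
    field_simp
    ring
  rw [hsplit]
  have hc := abs_le.1 (cv_abs hχ p)
  calc |(1 + cv χ p) * (F - y * L * P) - cv χ p * (G - y / p * L * P)|
      ≤ |(1 + cv χ p) * (F - y * L * P)| + |cv χ p * (G - y / p * L * P)| := abs_sub _ _
    _ = |1 + cv χ p| * |F - y * L * P| + |cv χ p| * |G - y / p * L * P| := by
        rw [abs_mul, abs_mul]
    _ ≤ 2 * B + 1 * B := by
        have h1 : |1 + cv χ p| ≤ 2 := abs_le.2 ⟨by linarith, by linarith⟩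
        exact add_le_add (mul_le_mul h1 e1 (abs_nonneg _) (by norm_num))
          (mul_le_mul (cv_abs hχ p) e3 (abs_nonneg _) (by norm_num))
    _ ≤ (p : ℝ) ^ 2 * B := by
        have h1 : (3 : ℝ) ≤ (p : ℝ) ^ 2 := by nlinarith
        have h2 := mul_le_mul_of_nonneg_right h1 hB0
        linarith
    _ = 8 * q * ((p * d' : ℕ) : ℝ) ^ 2 * Real.sqrt y := by
        rw [hB]
        push_cast
        ring

end Pool.Agent.E8helper12.SG
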